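import Pool.Agent.U188.WG.E

/-!
# Weakly global points of level one: the line minus a divisor with a CM component

`f ∈ ℤ[X]` monic, `𝒟 = ∞ ∪ V(f) ⊂ ℙ¹_ℤ`, `𝒳 = ℙ¹_ℤ ∖ 𝒟` (kind (i) of the problem if `f` is squarefree of
degree at least two).  `Level1 p f` is `𝒳(ℤ_p)_1`: the `z ∈ 𝒳(ℤ_p)` such that a power of `z - X` is in the
closure of `(ℤ[X]/(f))^×` in `(ℤ_p[X]/(f))^×`; see the header of the starting file
`LevelOneForTheLine.lean`, whose definitions are repeated here.  `Settled p f` is `𝒳(ℤ_p)_1 = 𝒳(ℤ)`, that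
is question Q1 with `N = 1`.

Let `g` be a monic factor of `f` of positive degree with CM roots: the complex conjugates of the
roots are given by one rational polynomial and no root is real (for irreducible `g` this means that
`ℚ[X]/(g)` is a CM field).  No condition is put on the other components `f / g`, and `p` is any prime.

(1) Every `z ∈ 𝒳(ℤ_p)_1` is a totally real algebraic integer; `h(z) = ± 1` for all the monic factors
`h` of `f`; and for all the conjugates `w` of `z` and all the roots `α` of `g` the quotient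
`(w - α) / (w - ᾱ)` is a root of unity.  There are at most `2 deg g` such `z`, for every `p`.
(2) If `ℤ` contains all the totally real `w` with `g(w) = ± 1` and the angles of (1), then
`𝒳(ℤ_p)_1 = 𝒳(ℤ)` for all `p` (and all `f` divisible by `g`).
(3) This is so if all the roots `α` of `g` have `|Im α| ≥ 1`.
(4) This is so for all the cyclotomic polynomials `g = Φ_m`, `m ≥ 3`: if `𝒟` contains `∞` and the
primitive `m`-th roots of unity then `𝒳(ℤ_p)_1 = 𝒳(ℤ) ⊂ {0, 1, -1}` for all `p`.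

The idea: if `u` is a unit of `ℤ[X]/(g)` then by Kronecker's theorem a power of `u` is invariant under
complex conjugation, with an exponent `W` which does not depend on `u`.  So this is true for the limits
of such `u`, and `(z - β)^m = (z - β̄)^m` in an algebraic closure of `ℚ_p`.  As `z` is algebraic this
can be read in `ℂ`, for every embedding, and `|w - α| = |w - ᾱ|` shows that `w` is real.
-/

set_option autoImplicit false

open Polynomial ComplexConjugate

namespace Pool.Agent.Results.MP_fd87b4_nt.CMComponents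

/-- `𝒳(ℤ)` -/
def IntPts (f : ℤ[X]) : Set ℤ := {z | IsUnit (f.eval z)}

/-- `𝒳(ℤ_p)` -/
def PadicPts (p : ℕ) [Fact p.Prime] (f : ℤ[X]) : Set ℤ_[p] :=
  {z | IsUnit ((f.map (Int.castRingHom ℤ_[p])).eval z)}

/-- `u` is a unit of `ℤ[X]/(f)` -/
def UnitMod (f u : ℤ[X]) : Prop := ∃ v a : ℤ[X], u * v = 1 + f * a

/-- the class of `P` is in the closure of the image of `(ℤ[X]/(f))^×` in `ℤ_p[X]/(f)` -/
def InClosure (p : ℕ) [Fact p.Prime] (f : ℤ[X]) (P : ℤ_[p][X]) : Prop :=
  ∀ k : ℕ, ∃ u : ℤ[X], UnitMod f u ∧ ∃ b c : ℤ_[p][X],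
    P = u.map (Int.castRingHom ℤ_[p]) + f.map (Int.castRingHom ℤ_[p]) * b +
      C ((p : ℤ_[p]) ^ k) * c

/-- `𝒳(ℤ_p)_1` -/
def Level1 (p : ℕ) [Fact p.Prime] (f : ℤ[X]) : Set ℤ_[p] :=
  {z | z ∈ PadicPts p f ∧ ∃ n : ℕ, 0 < n ∧ InClosure p f ((C z - X) ^ n)}

/-- `𝒳(ℤ_p)_1 = 𝒳(ℤ)` -/
def Settled (p : ℕ) [Fact p.Prime] (f : ℤ[X]) : Prop :=
  Level1 p f = (fun z : ℤ => (z : ℤ_[p])) '' IntPts f

/-- `g` has CM roots: one rational polynomial gives the complex conjugates of all the roots, and no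
root is real -/
def IsCM (g : ℤ[X]) : Prop :=
  ∃ c : ℚ[X], ∀ α : ℂ, aeval α g = 0 → aeval α c = conj α ∧ α.im ≠ 0

/-- the real number `w` sees all the roots of `g` under rational angles -/
def RationalAngles (g : ℤ[X]) (w : ℂ) : Prop :=
  w.im = 0 ∧ ∀ α : ℂ, aeval α g = 0 → ∃ m : ℕ, 0 < m ∧ (w - α) ^ m = (w - conj α) ^ m

/-- `w` is a totally real algebraic integer, `g(w) = ± 1`, and the conjugates of `w` see the roots of
`g` under rational angles -/
def Candidate (g : ℤ[X]) (w : ℂ) : Prop :=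
  IsIntegral ℤ w ∧ (aeval w g = 1 ∨ aeval w g = -1) ∧
    ∀ w' : ℂ, aeval w' (minpoly ℤ w) = 0 → RationalAngles g w'

section proof

open Pool.Agent.N874.WG Pool.Agent.U188.WG

variable {p : ℕ} [Fact p.Prime]

theorem mem_level (f : ℤ[X]) (x : ℤ) (hx : x ∈ IntPts f) : (x : ℤ_[p]) ∈ Level1 p f := by
  have hx' : f.eval x = 1 ∨ f.eval x = -1 := Int.isUnit_iff.1 hx
  refine ⟨?_, 1, one_pos, approx_int f x hx'⟩
  change IsUnit ((toP p f).eval (x : ℤ_[p]))
  rw [toP_eval_int]
  rcases hx' with h | h <;> rw [h] <;> simp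

theorem settled_of {f : ℤ[X]} (hf : f.Monic)
    (h : ∀ z ∈ Level1 p f, ∃ x : ℤ, z = x) : Settled p f := by
  refine Set.Subset.antisymm ?_ ?_
  · intro z hz
    obtain ⟨x, rfl⟩ := h z hz
    obtain ⟨-, n, hn, hz⟩ := hz
    have h1 := f_pow hf hz
    rw [toP_eval_int] at h1
    exact ⟨x, Int.isUnit_iff.2 (int_pm (by omega : 0 < 2 * n) h1), rfl⟩
  · rintro z ⟨x, hx, rfl⟩
    exact mem_level f x hx

theorem main {f g : ℤ[X]} (hg : g.Monic) (hd : 0 < g.natDegree) (hcm : IsCM g)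
    (hgf : g ∣ f) {z : ℤ_[p]} (hz : z ∈ Level1 p f) :
    IsIntegral ℤ z ∧ (∀ w : ℂ, aeval w (minpoly ℤ z) = 0 → RationalAngles g w) ∧
      ∀ h : ℤ[X], h.Monic → h ∣ f → aeval z h = 1 ∨ aeval z h = -1 := by
  obtain ⟨-, n, hn, ha⟩ := hz
  obtain ⟨g', hg'⟩ := hgf
  have hag : Approx p g z n := by
    have : Approx p (g * g') z n := by
      rw [← hg']
      exact ha
    exact this.dvd
  have hi : IsIntegral ℤ z := integral hg hd hn hag
  have hcm' : Pool.Agent.U188.WG.IsCM g := hcm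
  obtain ⟨α0, hα0⟩ : ∃ α : ℂ, aeval α g = 0 :=
    IsAlgClosed.exists_aeval_eq_zero ℂ _ (natDegree_pos_iff_degree_pos.1 hd).ne'
  obtain ⟨c, hc⟩ := hcm
  have hre : ∀ w : ℂ, aeval w (minpoly ℤ z) = 0 → w.im = 0 := by
    intro w hw
    obtain ⟨m, hm, h1⟩ := angle hg hcm' hn hag hi hw hα0
    exact real_of (hc α0 hα0).2 hm h1
  refine ⟨hi, fun w hw => ⟨hre w hw, fun α hα => angle hg hcm' hn hag hi hw hα⟩, ?_⟩
  rintro h hh ⟨h', hh'⟩
  have hah : Approx p h z n := by
    have : Approx p (h * h') z n := by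
      rw [← hh']
      exact ha
    exact this.dvd
  exact value hh hn hah hi hre

theorem candidate {f g : ℤ[X]} (hg : g.Monic) (hd : 0 < g.natDegree) (hcm : IsCM g)
    (hgf : g ∣ f) {z : ℤ_[p]} (hz : z ∈ Level1 p f) {w : ℂ} (hw : aeval w (minpoly ℤ z) = 0) :
    Candidate g w := by
  obtain ⟨hi, h1, h2⟩ := main hg hd hcm hgf hz
  have hwi : IsIntegral ℤ w := ⟨minpoly ℤ z, minpoly.monic hi, hw⟩
  refine ⟨hwi, ?_, ?_⟩
  · rcases h2 g hg hgf with h | h
    · left
      have := (same hi hw (g - 1)).2 (by rw [map_sub, h, map_one, sub_self])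
      rwa [map_sub, map_one, sub_eq_zero] at this
    · right
      have := (same hi hw (g + 1)).2 (by rw [map_add, h, map_one, neg_add_cancel])
      rw [map_add, map_one] at this
      exact eq_neg_of_add_eq_zero_left this
  · intro w' hw'
    refine h1 w' ?_
    exact conj_same hwi hw' _ hw

theorem settled_cand {f g : ℤ[X]} (hf : f.Monic) (hg : g.Monic) (hd : 0 < g.natDegree)
    (hcm : IsCM g) (hgf : g ∣ f) (hc : ∀ w : ℂ, Candidate g w → ∃ x : ℤ, w = x) : Settled p f := by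
  refine settled_of hf fun z hz => ?_
  have hi := (main hg hd hcm hgf hz).1
  obtain ⟨w, hw⟩ := exists_conj hi
  obtain ⟨x, hx⟩ := hc w (candidate hg hd hcm hgf hz hw)
  have h1 := (same hi hw (X - C x)).1 (by rw [map_sub, aeval_X, aeval_C, hx]; simp)
  rw [map_sub, aeval_X, aeval_C, sub_eq_zero] at h1
  exact ⟨x, by rw [h1]; simp⟩

theorem bound {f g : ℤ[X]} (hg : g.Monic) (hd : 0 < g.natDegree) (hcm : IsCM g) (hgf : g ∣ f) :
    (Level1 p f).Finite ∧ (Level1 p f).ncard ≤ 2 * g.natDegree := by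
  classical
  have hne : (g ^ 2 - 1 : ℤ[X]).Monic := by
    refine (hg.pow _).sub_of_left ?_
    rw [degree_one, ← natDegree_pos_iff_degree_pos, hg.natDegree_pow]
    omega
  have hne' : (g ^ 2 - 1 : ℤ[X]).map (algebraMap ℤ ℤ_[p]) ≠ 0 := (hne.map _).ne_zero
  have hsub : Level1 p f ⊆
      (((g ^ 2 - 1 : ℤ[X]).map (algebraMap ℤ ℤ_[p])).roots.toFinset : Set ℤ_[p]) := by
    intro z hz
    rw [Finset.mem_coe, Multiset.mem_toFinset, mem_roots hne', IsRoot.def, eval_map_algebraMap,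
      map_sub, map_pow, map_one]
    rcases (main hg hd hcm hgf hz).2.2 g hg hgf with h | h <;> rw [h] <;> ring
  refine ⟨(Finset.finite_toSet _).subset hsub, ?_⟩
  refine (Set.ncard_le_ncard hsub (Finset.finite_toSet _)).trans ?_
  rw [Set.ncard_coe_finset]
  refine (Multiset.toFinset_card_le _).trans ((card_roots' _).trans ?_)
  refine natDegree_map_le.trans ?_
  refine (natDegree_sub_le _ _).trans ?_
  rw [hg.natDegree_pow, natDegree_one]
  simp

theorem cyc_cand {m : ℕ} (hm : 3 ≤ m) {w : ℂ} (hw : Candidate (cyclotomic m ℤ) w) :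
    w = 0 ∨ w = 1 ∨ w = -1 := by
  obtain ⟨hi, hv, hr⟩ := hw
  refine small hi fun w' hw' => ?_
  have him := (hr w' hw').1
  refine ⟨him, ?_⟩
  obtain ⟨r, hr'⟩ := Complex.conj_eq_iff_real.1 (Complex.conj_eq_iff_im.2 him)
  by_contra hcon
  push Not at hcon
  rw [hr', Complex.norm_real, Real.norm_eq_abs] at hcon
  have h1 := cyc_big hm hcon
  rw [← hr'] at h1
  rcases hv with h | h
  · have := conj_same hi hw' (cyclotomic m ℤ - 1) (by rw [map_sub, h, map_one, sub_self])
    rw [map_sub, map_one, sub_eq_zero] at this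
    rw [this, norm_one] at h1
    exact lt_irrefl _ h1
  · have := conj_same hi hw' (cyclotomic m ℤ + 1) (by rw [map_add, h, map_one, neg_add_cancel])
    rw [map_add, map_one] at this
    rw [eq_neg_of_add_eq_zero_left this, norm_neg, norm_one] at h1
    exact lt_irrefl _ h1

theorem cyc_pts {m : ℕ} (hm : 3 ≤ m) {f : ℤ[X]} (hmf : cyclotomic m ℤ ∣ f) :
    Level1 p f ⊆ {0, 1, -1} := by
  intro z hz
  have hd : 0 < (cyclotomic m ℤ).natDegree := by
    rw [natDegree_cyclotomic]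
    exact Nat.totient_pos.2 (by omega)
  have hi := (main (cyclotomic.monic m ℤ) hd (cyc_cm hm) hmf hz).1
  obtain ⟨w, hw⟩ := exists_conj hi
  have h1 := cyc_cand hm (candidate (cyclotomic.monic m ℤ) hd (cyc_cm hm) hmf hz hw)
  rcases h1 with h | h | h
  · left
    have := (same hi hw X).1 (by rw [aeval_X, h])
    rwa [aeval_X] at this
  · right
    left
    have := (same hi hw (X - 1)).1 (by rw [map_sub, aeval_X, map_one, h, sub_self])
    rwa [map_sub, aeval_X, map_one, sub_eq_zero] at this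
  · right
    right
    have := (same hi hw (X + 1)).1 (by rw [map_add, aeval_X, map_one, h, neg_add_cancel])
    rw [map_add, aeval_X, map_one] at this
    exact eq_neg_of_add_eq_zero_left this

end proof

theorem result :
    (∀ f g : ℤ[X], f.Monic → g.Monic → 0 < g.natDegree → IsCM g → g ∣ f →
      ∀ (p : ℕ) [Fact p.Prime],
        -- (1)
        (∀ z ∈ Level1 p f, IsIntegral ℤ z ∧
          (∀ h : ℤ[X], h.Monic → h ∣ f → aeval z h = 1 ∨ aeval z h = -1) ∧
          ∀ w : ℂ, aeval w (minpoly ℤ z) = 0 → Candidate g w) ∧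
        ((Level1 p f).Finite ∧ (Level1 p f).ncard ≤ 2 * g.natDegree) ∧
        -- (2)
        ((∀ w : ℂ, Candidate g w → ∃ x : ℤ, w = x) → Settled p f) ∧
        -- (3)
        ((∀ α : ℂ, aeval α g = 0 → 1 ≤ |α.im|) → Settled p f)) ∧
    -- (4)
    ∀ m : ℕ, 3 ≤ m → IsCM (cyclotomic m ℤ) ∧
      ∀ f : ℤ[X], f.Monic → cyclotomic m ℤ ∣ f → ∀ (p : ℕ) [Fact p.Prime],
        Settled p f ∧ Level1 p f ⊆ {0, 1, -1} := by
  refine ⟨?_, fun m hm => ⟨Pool.Agent.U188.WG.cyc_cm hm, ?_⟩⟩
  · intro f g hf hg hd hcm hgf p _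
    refine ⟨?_, bound hg hd hcm hgf, settled_cand hf hg hd hcm hgf, ?_⟩
    · intro z hz
      have h1 := main hg hd hcm hgf hz
      exact ⟨h1.1, h1.2.2, fun w hw => candidate hg hd hcm hgf hz hw⟩
    · intro hfar
      refine settled_cand hf hg hd hcm hgf ?_
      rintro w ⟨hi, hv, hr⟩
      exact Pool.Agent.U188.WG.far hg hd hfar hi (fun w' hw' => (hr w' hw').1) hv
  · intro f hf hmf p _
    have h1 := cyc_pts (p := p) hm hmf
    refine ⟨settled_of hf fun z hz => ?_, h1⟩
    rcases h1 hz with h | h | h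
    · exact ⟨0, by rw [h]; simp⟩
    · exact ⟨1, by rw [h]; simp⟩
    · exact ⟨-1, by rw [h]; simp⟩

end Pool.Agent.Results.MP_fd87b4_nt.CMComponents
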