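import Pool.Agent.U757.WG.D

/-!
# Weakly global points of level one: factors over imaginary quadratic orders

`f ∈ ℤ[X]` monic, `𝒟 = ∞ ∪ V(f) ⊂ ℙ¹_ℤ`, `𝒳 = ℙ¹_ℤ ∖ 𝒟` (kind (i) of the problem if `f` is squarefree of
degree at least two).  `Level1 p f` is `𝒳(ℤ_p)_1`: the `z ∈ 𝒳(ℤ_p)` such that a power of `z - X` is in the
closure of `(ℤ[X]/(f))^×` in `(ℤ_p[X]/(f))^×`; see the header of the starting file
`LevelOneForTheLine.lean`, whose definitions are repeated here.  `Settled p f` is `𝒳(ℤ_p)_1 = 𝒳(ℤ)`, that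
is question Q1 with `N = 1`.

Let `ω ∈ ℂ`, `ω² = s ω - t`, `D = s² - 4 t < 0`, so that `O = ℤ[ω]` is an imaginary quadratic order of
discriminant `D`.  We suppose that `f` has a factor `A = a + ω b` over `O` with `a` monic, `b ≠ 0`,
`deg b < deg a`.  For an irreducible component `V(g)` of `𝒟` such a factor of `g` exists if (and only if) the
field `ℚ[X]/(g)` contains an imaginary quadratic field.  The other components are arbitrary, and `p` is
any prime.

(1) Every `z ∈ 𝒳(ℤ_p)_1` is an algebraic integer and all its complex conjugates `w` are exceptional: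
there are a root of unity `ζ` and a unit `x + y ω` of `O` with `a(w) = x ζ` and `b(w) = y ζ`.
(2) There are at most `deg b` such `z` if `D < -4`, at most `deg a + deg b` if `D = -4`, and at most
`2 deg a + deg b` if `D = -3`, for all `p`.
(3) If the exceptional `w` are integers then `𝒳(ℤ_p)_1 = 𝒳(ℤ)` for all `p`.
(4) If `b` is a constant and `D < -4` then `𝒳(ℤ_p)_1` is empty for all `p`.
(5) If `f` is divisible by `q(h)`, `q = Y² + s Y + t` and `h` any monic polynomial of positive degree, then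
`h(z)` is an integer `k` with `q(k) = 1` for all `z ∈ 𝒳(ℤ_p)_1`; so `𝒳(ℤ_p)_1` is empty for all `p` if
`D < -4`.
(6) For all `m, n ≥ 1` and all `f` divisible by `X^(2n) + m`: `𝒳(ℤ_p)_1 = 𝒳(ℤ)` for all `p`.
(7) Let `D < -4`.  For given `a`, `b` and all but at most `2 deg b` integers `k`, `𝒳(ℤ_p)_1` is empty for all
`p` and all `f` which are divisible by `a + k + ω b`.

The idea: the norm from `O[X]/(A)` to `O` sends the units of `ℤ[X]/(f)` to the finite group `O^×`, so
`A(z)` is a root of unity in `ℤ_p ⊗ O`.  As `z` is algebraic this can be read in `ℂ` at all the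
conjugates `w`: `a(w) + ω b(w)` and `a(w) + ω' b(w)` are roots of unity, so `|ω - ω'| |b(w)| ≤ 2`, and
Kronecker's theorem applies to `b(w)`, or to `|b(w)|² - 1` if `D = -3`.
-/

set_option autoImplicit false

open Polynomial

namespace Pool.Agent.Results.MP_fd87b4_nt.ImaginaryQuadraticFactors

/-- `𝒳(ℤ)` -/
def IntPts (f : ℤ[X]) : Set ℤ := {z | IsUnit (f.eval z)}

/-- `𝒳(ℤ_p)` -/
def PadicPts (p : ℕ) [Fact p.Prime] (f : ℤ[X]) : Set ℤ_[p] :=
  {z | IsUnit ((f.map (Int.castRingHom ℤ_[p])).eval z)}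

/-- `u` is a unit of `ℤ[X]/(f)` -/
def UnitMod (f u : ℤ[X]) : Prop := ∃ v a : ℤ[X], u * v = 1 + f * a

/-- the class of `P` is in the closure of the image of `(ℤ[X]/(f))^×` in `ℤ_p[X]/(f)` -/
def InClosure (p : ℕ) [Fact p.Prime] (f : ℤ[X]) (P : ℤ_[p][X]) : Prop :=
  ∀ k : ℕ, ∃ u : ℤ[X], UnitMod f u ∧ ∃ b c : ℤ_[p][X],
    P = u.map (Int.castRingHom ℤ_[p]) + f.map (Int.castRingHom ℤ_[p]) * b +
      C ((p : ℤ_[p]) ^ k) * c

/-- `𝒳(ℤ_p)_1` -/
def Level1 (p : ℕ) [Fact p.Prime] (f : ℤ[X]) : Set ℤ_[p] :=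
  {z | z ∈ PadicPts p f ∧ ∃ n : ℕ, 0 < n ∧ InClosure p f ((C z - X) ^ n)}

/-- `𝒳(ℤ_p)_1 = 𝒳(ℤ)` -/
def Settled (p : ℕ) [Fact p.Prime] (f : ℤ[X]) : Prop :=
  Level1 p f = (fun z : ℤ => (z : ℤ_[p])) '' IntPts f

/-- a complex root of unity -/
def Ru (ζ : ℂ) : Prop := ∃ n : ℕ, 0 < n ∧ ζ ^ n = 1

/-- `a + ω b` divides `f`, where `ω² = s ω - t`, `a` is monic, `b` is not zero and of smaller degree -/
def HasFactor (s t : ℤ) (a b f : ℤ[X]) : Prop :=
  a.Monic ∧ b ≠ 0 ∧ b.degree < a.degree ∧ ∃ ω : ℂ, ω ^ 2 = s * ω - t ∧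
    (a.map (Int.castRingHom ℂ) + C ω * b.map (Int.castRingHom ℂ)) ∣ f.map (Int.castRingHom ℂ)

/-- the possible complex conjugates of the weakly global points of level one: `w` is an algebraic
integer and `a(w) = x ζ`, `b(w) = y ζ` with a root of unity `ζ` and a unit `x + y ω` of `ℤ[ω]` -/
def Exceptional (s t : ℤ) (a b : ℤ[X]) (w : ℂ) : Prop :=
  IsIntegral ℤ w ∧ ∃ (ζ : ℂ) (x y : ℤ), Ru ζ ∧ x ^ 2 + s * x * y + t * y ^ 2 = 1 ∧
    aeval w a = x * ζ ∧ aeval w b = y * ζ

section proof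

open Pool.Agent.N874.WG Pool.Agent.U188.WG Pool.Agent.U757.WG

variable {p : ℕ} [Fact p.Prime]

theorem mem_level (f : ℤ[X]) (x : ℤ) (hx : x ∈ IntPts f) : (x : ℤ_[p]) ∈ Level1 p f := by
  have hx' : f.eval x = 1 ∨ f.eval x = -1 := Int.isUnit_iff.1 hx
  refine ⟨?_, 1, one_pos, approx_int f x hx'⟩
  change IsUnit ((toP p f).eval (x : ℤ_[p]))
  rw [toP_eval_int]
  rcases hx' with h | h <;> rw [h] <;> simp

theorem settled_of {f : ℤ[X]} (hf : f.Monic)
    (h : ∀ z ∈ Level1 p f, ∃ x : ℤ, z = x) : Settled p f := by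
  refine Set.Subset.antisymm ?_ ?_
  · intro z hz
    obtain ⟨x, rfl⟩ := h z hz
    obtain ⟨-, n, hn, hz⟩ := hz
    have h1 := f_pow hf hz
    rw [toP_eval_int] at h1
    exact ⟨x, Int.isUnit_iff.2 (int_pm (by omega : 0 < 2 * n) h1), rfl⟩
  · rintro z ⟨x, hx, rfl⟩
    exact mem_level f x hx

theorem main {s t : ℤ} (hD : s ^ 2 - 4 * t < 0) {a b f : ℤ[X]} (hf : f.Monic)
    (h : HasFactor s t a b f) {z : ℤ_[p]} (hz : z ∈ Level1 p f) :
    IsIntegral ℤ z ∧ (∀ w : ℂ, aeval w (minpoly ℤ z) = 0 → Exceptional s t a b w) ∧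
      (aeval z b = 0 ∨ (s ^ 2 - 4 * t = -4 ∧ aeval z (2 * a + C s * b) = 0) ∨
        (s ^ 2 - 4 * t = -3 ∧
          aeval z ((2 * a + C (s - 1) * b) * (2 * a + C (s + 1) * b)) = 0)) := by
  obtain ⟨ha, hb, hab, ω, hω, hdvd⟩ := h
  obtain ⟨-, n, hn, hap⟩ := hz
  have hi : IsIntegral ℤ z := integral hf (natDeg_pos ha hab hb hf hdvd) hn hap
  have hwi : ∀ w : ℂ, aeval w (minpoly ℤ z) = 0 → IsIntegral ℤ w := fun w hw =>
    ⟨minpoly ℤ z, minpoly.monic hi, hw⟩
  refine ⟨hi, ?_⟩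
  obtain ⟨c, hc⟩ : ∃ c : ℤ, s = 2 * c ∨ s = 2 * c + 1 := ⟨s / 2, by omega⟩
  by_cases h4 : s ^ 2 + 4 ≤ 4 * t
  · rcases cases h4 ha hab hω hdvd hn hap hi with ⟨h1, h2⟩ | ⟨h1, h2⟩
    · refine ⟨fun w hw => ⟨hwi w hw, aeval w a, 1, 0, ⟨n * 4, by omega, h2 w hw⟩, by ring,
        by simp, ?_⟩, Or.inl h1⟩
      rw [(same hi hw b).2 h1]
      simp
    · have hs : s = 2 * c := by
        rcases hc with hc | hc
        · exact hc
        · exfalso
          rw [hc] at h1
          have : 4 * t = 4 * (c ^ 2 + c + 1) + 1 := by linear_combination h1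
          omega
      refine ⟨fun w hw => ⟨hwi w hw, aeval w b, -c, 1, ⟨n * 16, by omega, (h2 w hw).2⟩, ?_, ?_, ?_⟩,
        Or.inr (Or.inl ⟨by linarith, ?_⟩)⟩
      · have : 4 * t = 4 * c ^ 2 + 4 := by rw [h1, hs]; ring
        have h5 : t = c ^ 2 + 1 := by linarith
        rw [h5, hs]
        ring
      · have h3 := (h2 w hw).1
        rw [map_add, map_mul, map_mul, aeval_C, map_ofNat, hs] at h3
        have h4 : 2 * aeval w a + 2 * (c : ℂ) * aeval w b = 0 := by simpa using h3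
        push_cast
        linear_combination (1 / 2 : ℂ) * h4
      · simp
      · obtain ⟨w, hw⟩ := exists_conj hi
        exact (same hi hw _).1 (h2 w hw).1
  · have h3 : 4 * t = s ^ 2 + 3 := by
      rcases hc with hc | hc
      · rw [hc] at hD h4 ⊢
        have e : (2 * c) ^ 2 = 4 * c ^ 2 := by ring
        rw [e] at hD h4 ⊢
        omega
      · rw [hc] at hD h4 ⊢
        have e : (2 * c + 1) ^ 2 = 4 * (c ^ 2 + c) + 1 := by ring
        rw [e] at hD h4 ⊢
        omega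
    have hs : s = 2 * c + 1 := by
      rcases hc with hc | hc
      · exfalso
        rw [hc] at h3
        have : 4 * t = 4 * c ^ 2 + 3 := by linear_combination h3
        omega
      · exact hc
    have ht : t = c ^ 2 + c + 1 := by
      rw [hs] at h3
      have : 4 * t = 4 * (c ^ 2 + c + 1) := by linear_combination h3
      linarith
    rcases cases3 h3 ha hab hω hdvd hn hap hi with ⟨h1, h2⟩ | h2
    · refine ⟨fun w hw => ⟨hwi w hw, aeval w a, 1, 0, ⟨n * 12, by omega, h2 w hw⟩, by ring,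
        by simp, ?_⟩, Or.inl h1⟩
      rw [(same hi hw b).2 h1]
      simp
    · refine ⟨fun w hw => ?_, Or.inr (Or.inr ⟨by linarith, ?_⟩)⟩
      · obtain ⟨h5, h6⟩ := h2 w hw
        have h7 : (aeval w a + c * aeval w b) * (aeval w a + (c + 1) * aeval w b) = 0 := by
          rw [hs] at h5
          push_cast at h5
          linear_combination (1 / 4 : ℂ) * h5
        refine ⟨hwi w hw, aeval w b, ?_⟩
        rcases mul_eq_zero.1 h7 with h8 | h8
        · refine ⟨-c, 1, ⟨n * 24, by omega, h6⟩, ?_, ?_, by simp⟩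
          · rw [ht, hs]
            ring
          · push_cast
            linear_combination h8
        · refine ⟨-(c + 1), 1, ⟨n * 24, by omega, h6⟩, ?_, ?_, by simp⟩
          · rw [ht, hs]
            ring
          · push_cast
            linear_combination h8
      · obtain ⟨w, hw⟩ := exists_conj hi
        refine (same hi hw _).1 ?_
        obtain ⟨h5, -⟩ := h2 w hw
        simp only [map_mul, map_add, map_ofNat, map_sub, map_one, eq_intCast, map_intCast]
        linear_combination h5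

theorem bound {f R : ℤ[X]} (hR : R ≠ 0) (h : ∀ z ∈ Level1 p f, aeval z R = 0) :
    (Level1 p f).Finite ∧ (Level1 p f).ncard ≤ R.natDegree := by
  classical
  have hne' : R.map (algebraMap ℤ ℤ_[p]) ≠ 0 :=
    (Polynomial.map_ne_zero_iff (algebraMap ℤ ℤ_[p]).injective_int).2 hR
  have hsub : Level1 p f ⊆ ((R.map (algebraMap ℤ ℤ_[p])).roots.toFinset : Set ℤ_[p]) := by
    intro z hz
    rw [Finset.mem_coe, Multiset.mem_toFinset, mem_roots hne', IsRoot.def, eval_map_algebraMap]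
    exact h z hz
  refine ⟨(Finset.finite_toSet _).subset hsub, ?_⟩
  refine (Set.ncard_le_ncard hsub (Finset.finite_toSet _)).trans ?_
  rw [Set.ncard_coe_finset]
  exact (Multiset.toFinset_card_le _).trans ((card_roots' _).trans natDegree_map_le)

theorem settled_exc {s t : ℤ} (hD : s ^ 2 - 4 * t < 0) {a b f : ℤ[X]} (hf : f.Monic)
    (h : HasFactor s t a b f) (hc : ∀ w : ℂ, Exceptional s t a b w → ∃ x : ℤ, w = x) :
    Settled p f := by
  refine settled_of hf fun z hz => ?_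
  obtain ⟨hi, h1, -⟩ := main hD hf h hz
  obtain ⟨w, hw⟩ := exists_conj hi
  obtain ⟨x, hx⟩ := hc w (h1 w hw)
  have h2 := (same hi hw (X - C x)).1 (by rw [map_sub, aeval_X, aeval_C, hx]; simp)
  rw [map_sub, aeval_X, aeval_C, sub_eq_zero] at h2
  exact ⟨x, by rw [h2]; simp⟩

theorem empty_of {f : ℤ[X]} (h : Level1 p f = ∅) (hf : f.Monic) : Settled p f :=
  settled_of hf fun z hz => by
    rw [h] at hz
    exact absurd hz (Set.notMem_empty z)

theorem const_empty {s t : ℤ} (hD : s ^ 2 - 4 * t < -4) {a b f : ℤ[X]} (hf : f.Monic)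
    (h : HasFactor s t a b f) (hb : b.natDegree = 0) : Level1 p f = ∅ := by
  rw [Set.eq_empty_iff_forall_notMem]
  intro z hz
  obtain ⟨-, -, h1⟩ := main (by omega : s ^ 2 - 4 * t < 0) hf h hz
  rcases h1 with h1 | ⟨h1, -⟩ | ⟨h1, -⟩
  · obtain ⟨c, hc⟩ := natDegree_eq_zero.1 hb
    rw [← hc, aeval_C] at h1
    have hc0 : c = 0 := by
      have : ((c : ℤ) : ℤ_[p]) = 0 := by simpa using h1
      exact_mod_cast this
    exact h.2.1 (by rw [← hc, hc0, C_0])
  · omega
  · omega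

theorem comp_factor {s t : ℤ} {h f : ℤ[X]} (hh : h.Monic) (hd : 0 < h.natDegree)
    (hf : (h ^ 2 + C s * h + C t) ∣ f) : HasFactor s t h 1 f := by
  obtain ⟨ω, hω⟩ := exists_omega s t
  refine ⟨hh, one_ne_zero, ?_, ω, hω, comp_dvd hω hf⟩
  rw [degree_one]
  exact natDegree_pos_iff_degree_pos.1 hd

theorem comp_value {s t : ℤ} (hD : s ^ 2 - 4 * t < 0) {h f : ℤ[X]} (hf : f.Monic)
    (hfac : HasFactor s t h 1 f) {z : ℤ_[p]} (hz : z ∈ Level1 p f) :
    ∃ k : ℤ, k ^ 2 + s * k + t = 1 ∧ aeval z h = k := by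
  obtain ⟨hi, h1, -⟩ := main hD hf hfac hz
  obtain ⟨w, hw⟩ := exists_conj hi
  obtain ⟨-, ζ, x, y, ⟨N, hN, hζ⟩, hn, h2, h3⟩ := h1 w hw
  rw [map_one] at h3
  have h4 : (y : ℂ) ^ N = 1 := by
    have h5 : ((y : ℂ) * ζ) ^ N = 1 := by rw [← h3, one_pow]
    rwa [mul_pow, hζ, mul_one] at h5
  have h5 : y ^ N = 1 := by exact_mod_cast h4
  have h6 : y = 1 ∨ y = -1 := Int.isUnit_iff.1 (IsUnit.of_pow_eq_one h5 hN.ne')
  have h7 : y * y = 1 := by rcases h6 with h | h <;> rw [h] <;> norm_num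
  have h7' : (y : ℂ) * y = 1 := by exact_mod_cast h7
  refine ⟨x * y, by linear_combination hn + (x ^ 2 - t) * h7, ?_⟩
  have h8 : aeval w h = ((x * y : ℤ) : ℂ) := by
    push_cast
    rw [h2]
    linear_combination (-(x : ℂ) * y) * h3 - (x : ℂ) * ζ * h7'
  have h9 := (same hi hw (h - C (x * y))).1 (by rw [map_sub, h8, aeval_C]; simp)
  rw [map_sub, aeval_C, sub_eq_zero] at h9
  rw [h9]
  simp

/-- the integers `k` with `|c + k| = 1` -/
theorem two_int {c : ℂ} {k : ℤ} (h : ‖c + k‖ = 1) :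
    k ∈ ({⌊-c.re + √(1 - c.im ^ 2)⌋, ⌊-c.re - √(1 - c.im ^ 2)⌋} : Finset ℤ) := by
  have h1 : (c.re + k) ^ 2 + c.im ^ 2 = 1 := by
    have h2 : Complex.normSq (c + k) = 1 := by rw [Complex.normSq_eq_norm_sq, h, one_pow]
    rw [Complex.normSq_apply] at h2
    simp only [Complex.add_re, Complex.add_im, Complex.intCast_re, Complex.intCast_im,
      add_zero] at h2
    linear_combination h2
  have h3 : √(1 - c.im ^ 2) = |c.re + k| := by
    rw [← Real.sqrt_sq_eq_abs]
    congr 1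
    linarith
  rw [h3, Finset.mem_insert, Finset.mem_singleton]
  rcases abs_choice (c.re + k) with h4 | h4
  · left
    rw [h4]
    have : -c.re + (c.re + (k : ℝ)) = k := by ring
    rw [this, Int.floor_intCast]
  · right
    rw [h4]
    have : -c.re - -(c.re + (k : ℝ)) = k := by ring
    rw [this, Int.floor_intCast]

theorem generic {s t : ℤ} (hD : s ^ 2 - 4 * t < -4) (a : ℤ[X]) {b : ℤ[X]} (hb : b ≠ 0) :
    ∃ E : Finset ℤ, E.card ≤ 2 * b.natDegree ∧ ∀ k : ℤ, k ∉ E → ∀ f : ℤ[X], f.Monic →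
      HasFactor s t (a + C k) b f → ∀ (p : ℕ) [Fact p.Prime], Level1 p f = ∅ ∧ Settled p f := by
  classical
  let B : ℂ[X] := b.map (algebraMap ℤ ℂ)
  have hB : B ≠ 0 := (Polynomial.map_ne_zero_iff (algebraMap ℤ ℂ).injective_int).2 hb
  refine ⟨B.roots.toFinset.biUnion fun w =>
    {⌊-(aeval w a).re + √(1 - (aeval w a).im ^ 2)⌋, ⌊-(aeval w a).re - √(1 - (aeval w a).im ^ 2)⌋},
    ?_, ?_⟩
  · refine Finset.card_biUnion_le.trans ?_
    refine (Finset.sum_le_card_nsmul _ _ 2 fun w _ => Finset.card_le_two).trans ?_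
    rw [smul_eq_mul, mul_comm]
    refine Nat.mul_le_mul_left 2 ?_
    exact (Multiset.toFinset_card_le _).trans ((card_roots' _).trans natDegree_map_le)
  · intro k hk f hf h p _
    have h0 : Level1 p f = ∅ := by
      rw [Set.eq_empty_iff_forall_notMem]
      intro z hz
      obtain ⟨hi, h1, h2⟩ := main (by omega : s ^ 2 - 4 * t < 0) hf h hz
      have hzb : aeval z b = 0 := by
        rcases h2 with h2 | ⟨h2, -⟩ | ⟨h2, -⟩
        · exact h2
        · omega
        · omega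
      obtain ⟨w, hw⟩ := exists_conj hi
      have hwb : aeval w b = 0 := (same hi hw b).2 hzb
      obtain ⟨-, ζ, x, y, ⟨N, hN, hζ⟩, hn, h3, h4⟩ := h1 w hw
      have hζ1 : ‖ζ‖ = 1 := Complex.norm_eq_one_of_pow_eq_one hζ hN.ne'
      have hζ0 : ζ ≠ 0 := by
        intro h
        rw [h, norm_zero] at hζ1
        norm_num at hζ1
      have hy : y = 0 := by
        rw [hwb] at h4
        have := (mul_eq_zero.1 h4.symm).resolve_right hζ0
        exact_mod_cast this
      have hx : x = 1 ∨ x = -1 := by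
        rw [hy] at hn
        have : x ^ 2 = 1 := by linear_combination hn
        exact Int.isUnit_iff.1 (IsUnit.of_pow_eq_one this two_ne_zero)
      have h5 : ‖aeval w a + k‖ = 1 := by
        have h6 : aeval w a + (k : ℂ) = x * ζ := by
          rw [← h3, map_add, aeval_C]
          simp
        rw [h6, norm_mul, hζ1, mul_one, Complex.norm_intCast]
        rcases hx with h | h <;> rw [h] <;> norm_num
      apply hk
      rw [Finset.mem_biUnion]
      refine ⟨w, ?_, two_int h5⟩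
      rw [Multiset.mem_toFinset, mem_roots hB, IsRoot.def, eval_map_algebraMap]
      exact hwb
    exact ⟨h0, empty_of h0 hf⟩

end proof

theorem result :
    (∀ s t : ℤ, s ^ 2 - 4 * t < 0 → ∀ a b f : ℤ[X], f.Monic → HasFactor s t a b f →
      ∀ (p : ℕ) [Fact p.Prime],
        -- (1)
        (∀ z ∈ Level1 p f, IsIntegral ℤ z ∧
          ∀ w : ℂ, aeval w (minpoly ℤ z) = 0 → Exceptional s t a b w) ∧
        -- (2)
        ((Level1 p f).Finite ∧ (Level1 p f).ncard ≤ 2 * a.natDegree + b.natDegree ∧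
          (s ^ 2 - 4 * t = -4 → (Level1 p f).ncard ≤ a.natDegree + b.natDegree) ∧
          (s ^ 2 - 4 * t < -4 → (Level1 p f).ncard ≤ b.natDegree)) ∧
        -- (3)
        ((∀ w : ℂ, Exceptional s t a b w → ∃ x : ℤ, w = x) → Settled p f) ∧
        -- (4)
        (s ^ 2 - 4 * t < -4 → b.natDegree = 0 → Level1 p f = ∅ ∧ Settled p f)) ∧
    -- (5)
    (∀ s t : ℤ, s ^ 2 - 4 * t < 0 → ∀ h f : ℤ[X], h.Monic → 0 < h.natDegree → f.Monic →
      (h ^ 2 + C s * h + C t) ∣ f → ∀ (p : ℕ) [Fact p.Prime],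
        (∀ z ∈ Level1 p f, ∃ k : ℤ, k ^ 2 + s * k + t = 1 ∧ aeval z h = k) ∧
        (s ^ 2 - 4 * t < -4 → Level1 p f = ∅ ∧ Settled p f)) ∧
    -- (6)
    (∀ m n : ℕ, 1 ≤ m → 1 ≤ n → ∀ f : ℤ[X], f.Monic → (X ^ (2 * n) + C (m : ℤ)) ∣ f →
      ∀ (p : ℕ) [Fact p.Prime], Settled p f) ∧
    -- (7)
    ∀ s t : ℤ, s ^ 2 - 4 * t < -4 → ∀ a b : ℤ[X], b ≠ 0 →
      ∃ E : Finset ℤ, E.card ≤ 2 * b.natDegree ∧ ∀ k : ℤ, k ∉ E → ∀ f : ℤ[X], f.Monic →
        HasFactor s t (a + C k) b f → ∀ (p : ℕ) [Fact p.Prime], Level1 p f = ∅ ∧ Settled p f := by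
  refine ⟨?_, ?_, ?_, fun s t hD a b hb => generic hD a hb⟩
  · intro s t hD a b f hf h p _
    refine ⟨fun z hz => ⟨(main hD hf h hz).1, (main hD hf h hz).2.1⟩, ?_,
      settled_exc hD hf h, fun hD' hb => ?_⟩
    · have hlin := Pool.Agent.U757.WG.lin_ne s h.1 h.2.2.1
      have hlin1 := Pool.Agent.U757.WG.lin_ne (s - 1) h.1 h.2.2.1
      have hlin2 := Pool.Agent.U757.WG.lin_ne (s + 1) h.1 h.2.2.1
      have hsmall : s ^ 2 - 4 * t < -4 → (Level1 p f).Finite ∧
          (Level1 p f).ncard ≤ b.natDegree := by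
        intro hD'
        refine bound (p := p) (f := f) h.2.1 (fun z hz => ?_)
        rcases (main hD hf h hz).2.2 with h1 | ⟨h1, -⟩ | ⟨h1, -⟩
        · exact h1
        · omega
        · omega
      have hfour : s ^ 2 - 4 * t = -4 → (Level1 p f).Finite ∧
          (Level1 p f).ncard ≤ a.natDegree + b.natDegree := by
        intro hD'
        have h1 := bound (p := p) (f := f) (mul_ne_zero hlin.1 h.2.1) (fun z hz => by
          rw [map_mul]
          rcases (main hD hf h hz).2.2 with h1 | ⟨-, h1⟩ | ⟨h1, -⟩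
          · rw [h1, mul_zero]
          · rw [h1, zero_mul]
          · omega)
        exact ⟨h1.1, h1.2.trans (natDegree_mul_le.trans (Nat.add_le_add_right hlin.2 _))⟩
      have hthree : -4 < s ^ 2 - 4 * t → (Level1 p f).Finite ∧
          (Level1 p f).ncard ≤ 2 * a.natDegree + b.natDegree := by
        intro hD'
        have h1 := bound (p := p) (f := f)
          (mul_ne_zero (mul_ne_zero hlin1.1 hlin2.1) h.2.1) (fun z hz => by
          rw [map_mul]
          rcases (main hD hf h hz).2.2 with h1 | ⟨h1, -⟩ | ⟨-, h1⟩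
          · rw [h1, mul_zero]
          · omega
          · rw [h1, zero_mul])
        refine ⟨h1.1, h1.2.trans (natDegree_mul_le.trans (Nat.add_le_add_right ?_ _))⟩
        refine natDegree_mul_le.trans ((Nat.add_le_add hlin1.2 hlin2.2).trans (by omega))
      rcases lt_trichotomy (s ^ 2 - 4 * t) (-4) with hh | hh | hh
      · exact ⟨(hsmall hh).1, (hsmall hh).2.trans (by omega), fun _ => (hsmall hh).2.trans (by omega),
          fun _ => (hsmall hh).2⟩
      · exact ⟨(hfour hh).1, (hfour hh).2.trans (by omega), fun _ => (hfour hh).2,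
          fun h1 => by omega⟩
      · exact ⟨(hthree hh).1, (hthree hh).2, fun h1 => by omega, fun h1 => by omega⟩
    · have h1 : Level1 p f = ∅ := const_empty hD' hf h hb
      exact ⟨h1, empty_of h1 hf⟩
  · intro s t hD h f hh hd hf hdvd p _
    refine ⟨fun z hz => comp_value hD hf (comp_factor hh hd hdvd) hz, fun hD' => ?_⟩
    have h1 : Level1 p f = ∅ := const_empty hD' hf (comp_factor hh hd hdvd) natDegree_one
    exact ⟨h1, empty_of h1 hf⟩
  · intro m n hm hn f hf hdvd p _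
    have hdvd' : ((X ^ n : ℤ[X]) ^ 2 + C 0 * X ^ n + C (m : ℤ)) ∣ f := by
      have e : ((X ^ n : ℤ[X]) ^ 2 + C 0 * X ^ n + C (m : ℤ)) = X ^ (2 * n) + C (m : ℤ) := by
        rw [C_0, zero_mul, add_zero, ← pow_mul, mul_comm]
      rw [e]
      exact hdvd
    have hd : 0 < (X ^ n : ℤ[X]).natDegree := by
      rw [natDegree_X_pow]
      omega
    have hfac : HasFactor 0 m (X ^ n) 1 f := comp_factor (monic_X_pow n) hd hdvd'
    refine settled_of hf fun z hz => ?_
    obtain ⟨k, hk, hz'⟩ := comp_value (s := 0) (t := m) (by push_cast; omega) hf hfac hz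
    have hk0 : k = 0 := by
      have h1 : k ^ 2 ≤ 0 := by
        have : (1 : ℤ) ≤ m := by exact_mod_cast hm
        linarith
      exact pow_eq_zero_iff two_ne_zero |>.1 (le_antisymm h1 (sq_nonneg k))
    refine ⟨0, ?_⟩
    rw [map_pow, aeval_X, hk0, Int.cast_zero, pow_eq_zero_iff (by omega)] at hz'
    rw [hz']
    simp

end Pool.Agent.Results.MP_fd87b4_nt.ImaginaryQuadraticFactors
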