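import Pool.Agent.U188.WG.G

/-!
# Weakly global points of level one: the line minus a divisor with at least three components

`f ∈ ℤ[X]` monic, `𝒟 = ∞ ∪ V(f) ⊂ ℙ¹_ℤ`, `𝒳 = ℙ¹_ℤ ∖ 𝒟` (kind (i) of the problem if `f` is squarefree of
degree at least two).  `Level1 p f` is `𝒳(ℤ_p)_1`: the `z ∈ 𝒳(ℤ_p)` such that a power of `z - X` is in the
closure of `(ℤ[X]/(f))^×` in `(ℤ_p[X]/(f))^×`; see the header of the starting file
`LevelOneForTheLine.lean`, whose definitions are repeated here.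

Suppose that `𝒟` contains besides `∞` two components (or unions of components) `V(g)` and `V(h)`
without common complex point, `g`, `h` monic of degrees `d`, `e ≥ 1`.  They need not be sections, and
nothing is assumed about the rest of `𝒟`.

(1) There is ONE nonzero polynomial `R ∈ ℤ[X]` of degree at most `2 d e` with `R(z) = 0` for all the
`z ∈ 𝒳(ℤ_p)_1` and ALL primes `p`: so `𝒳(ℤ_p)_1` has at most `2 d e` elements, for every `p`, and the
union over all `p` consists of finitely many algebraic integers, up to conjugation.  All the values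
`k(z)`, `k` a monic factor of `f`, are roots of unity.
(2) If `ℤ` contains all the algebraic integers `w` such that the `k(w)`, `k` a monic factor of `f`, are
roots of unity, then `𝒳(ℤ_p)_1 = 𝒳(ℤ)` (question Q1 with `N = 1`) for all `p`.
(3) If `ℤ` contains all the algebraic integers `w` such that `k(w) = ± 1` for all the monic factors `k`
of `f`, then `𝒳(ℤ_p)_1 = 𝒳(ℤ)` for all `p ≡ 3 mod 4` with `p ≢ 1 mod q` for all odd primes
`q ≤ 2 d e + 1`; for example for `p = 3` and for infinitely many other `p`.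
(4) If `g (g + c)` divides `f` with an integer `c`, `|c| ≥ 3`, then `𝒳(ℤ_p)_1 = 𝒳(ℤ) = ∅` for all `p`.

The starting file has the bound `2 e` if `V(g)` is a section (`d = 1`).  The idea: the values `g(z)`
and `h(z)` are roots of unity, so for every conjugate `w ∈ ℂ` of `z` the point `(w, w̄)` is on the two
curves `g(x) g(y) = 1` and `h(x) h(y) = 1`; `R` is their resultant, and for a root `α` of `g` we have
`R(α) = ± h(α)^d ≠ 0`.
-/

set_option autoImplicit false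

open Polynomial ComplexConjugate

namespace Pool.Agent.Results.MP_fd87b4_nt.ThreeComponents

/-- `𝒳(ℤ)` -/
def IntPts (f : ℤ[X]) : Set ℤ := {z | IsUnit (f.eval z)}

/-- `𝒳(ℤ_p)` -/
def PadicPts (p : ℕ) [Fact p.Prime] (f : ℤ[X]) : Set ℤ_[p] :=
  {z | IsUnit ((f.map (Int.castRingHom ℤ_[p])).eval z)}

/-- `u` is a unit of `ℤ[X]/(f)` -/
def UnitMod (f u : ℤ[X]) : Prop := ∃ v a : ℤ[X], u * v = 1 + f * a

/-- the class of `P` is in the closure of the image of `(ℤ[X]/(f))^×` in `ℤ_p[X]/(f)` -/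
def InClosure (p : ℕ) [Fact p.Prime] (f : ℤ[X]) (P : ℤ_[p][X]) : Prop :=
  ∀ k : ℕ, ∃ u : ℤ[X], UnitMod f u ∧ ∃ b c : ℤ_[p][X],
    P = u.map (Int.castRingHom ℤ_[p]) + f.map (Int.castRingHom ℤ_[p]) * b +
      C ((p : ℤ_[p]) ^ k) * c

/-- `𝒳(ℤ_p)_1` -/
def Level1 (p : ℕ) [Fact p.Prime] (f : ℤ[X]) : Set ℤ_[p] :=
  {z | z ∈ PadicPts p f ∧ ∃ n : ℕ, 0 < n ∧ InClosure p f ((C z - X) ^ n)}

/-- `𝒳(ℤ_p)_1 = 𝒳(ℤ)` -/
def Settled (p : ℕ) [Fact p.Prime] (f : ℤ[X]) : Prop :=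
  Level1 p f = (fun z : ℤ => (z : ℤ_[p])) '' IntPts f

/-- `p ≡ 3 mod 4` and `p ≢ 1 mod q` for all odd primes `q ≤ 2m + 1` -/
def Good (m p : ℕ) : Prop :=
  p % 4 = 3 ∧ ∀ q : ℕ, q.Prime → q ≠ 2 → q ≤ 2 * m + 1 → ¬ q ∣ p - 1

/-- a root of unity -/
def Ru {K : Type} [Monoid K] (ζ : K) : Prop := ∃ n : ℕ, 0 < n ∧ ζ ^ n = 1

section proof

open Pool.Agent.N874.WG Pool.Agent.U188.WG

variable {p : ℕ} [Fact p.Prime]

theorem mem_level (f : ℤ[X]) (x : ℤ) (hx : x ∈ IntPts f) : (x : ℤ_[p]) ∈ Level1 p f := by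
  have hx' : f.eval x = 1 ∨ f.eval x = -1 := Int.isUnit_iff.1 hx
  refine ⟨?_, 1, one_pos, approx_int f x hx'⟩
  change IsUnit ((toP p f).eval (x : ℤ_[p]))
  rw [toP_eval_int]
  rcases hx' with h | h <;> rw [h] <;> simp

theorem settled_of {f : ℤ[X]} (hf : f.Monic)
    (h : ∀ z ∈ Level1 p f, ∃ x : ℤ, z = x) : Settled p f := by
  refine Set.Subset.antisymm ?_ ?_
  · intro z hz
    obtain ⟨x, rfl⟩ := h z hz
    obtain ⟨-, n, hn, hz⟩ := hz
    have h1 := f_pow hf hz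
    rw [toP_eval_int] at h1
    exact ⟨x, Int.isUnit_iff.2 (int_pm (by omega : 0 < 2 * n) h1), rfl⟩
  · rintro z ⟨x, hx, rfl⟩
    exact mem_level f x hx

theorem approx_of {f k : ℤ[X]} (hk : k ∣ f) {z : ℤ_[p]} {n : ℕ}
    (h : InClosure p f ((C z - X) ^ n)) : Approx p k z n := by
  obtain ⟨k', hk'⟩ := hk
  have : Approx p (k * k') z n := by
    rw [← hk']
    exact h
  exact this.dvd

theorem main {f g h : ℤ[X]} (hg : g.Monic) (hh : h.Monic) (hd : 0 < g.natDegree)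
    (hgf : g ∣ f) (hhf : h ∣ f) {z : ℤ_[p]} (hz : z ∈ Level1 p f) :
    aeval z (Res g h) = 0 ∧ IsIntegral ℤ z ∧ ∀ k : ℤ[X], k.Monic → k ∣ f → Ru (aeval z k) := by
  obtain ⟨-, n, hn, ha⟩ := hz
  refine ⟨root_res hg hh hd hn (approx_of hgf ha) (approx_of hhf ha),
    integral hg hd hn (approx_of hgf ha), fun k hk hkf => ⟨2 * n, by omega, ?_⟩⟩
  have := f_pow hk (approx_of hkf ha)
  rw [toP, eval_map] at this
  exact this

theorem bound {f g h : ℤ[X]} (hg : g.Monic) (hh : h.Monic) (hd : 0 < g.natDegree)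
    (hR : Res g h ≠ 0) (hgf : g ∣ f) (hhf : h ∣ f) :
    (Level1 p f).Finite ∧ (Level1 p f).ncard ≤ 2 * (g.natDegree * h.natDegree) := by
  classical
  have hne' : (Res g h).map (algebraMap ℤ ℤ_[p]) ≠ 0 :=
    (Polynomial.map_ne_zero_iff (algebraMap ℤ ℤ_[p]).injective_int).2 hR
  have hsub : Level1 p f ⊆
      (((Res g h).map (algebraMap ℤ ℤ_[p])).roots.toFinset : Set ℤ_[p]) := by
    intro z hz
    rw [Finset.mem_coe, Multiset.mem_toFinset, mem_roots hne', IsRoot.def, eval_map_algebraMap]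
    exact (main hg hh hd hgf hhf hz).1
  refine ⟨(Finset.finite_toSet _).subset hsub, ?_⟩
  refine (Set.ncard_le_ncard hsub (Finset.finite_toSet _)).trans ?_
  rw [Set.ncard_coe_finset]
  refine (Multiset.toFinset_card_le _).trans ((card_roots' _).trans ?_)
  exact natDegree_map_le.trans (Res_natDegree g h)

theorem to_int {z : ℤ_[p]} (hi : IsIntegral ℤ z) {w : ℂ} (hw : aeval w (minpoly ℤ z) = 0)
    (h : ∃ x : ℤ, w = x) : ∃ x : ℤ, z = x := by
  obtain ⟨x, hx⟩ := h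
  have h1 := (same hi hw (X - C x)).1 (by rw [map_sub, aeval_X, aeval_C, hx]; simp)
  rw [map_sub, aeval_X, aeval_C, sub_eq_zero] at h1
  exact ⟨x, by rw [h1]; simp⟩

theorem settled_ru {f g h : ℤ[X]} (hf : f.Monic) (hg : g.Monic) (hh : h.Monic)
    (hd : 0 < g.natDegree) (hgf : g ∣ f) (hhf : h ∣ f)
    (hC : ∀ w : ℂ, IsIntegral ℤ w → (∀ k : ℤ[X], k.Monic → k ∣ f → Ru (aeval w k)) →
      ∃ x : ℤ, w = x) : Settled p f := by
  refine settled_of hf fun z hz => ?_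
  obtain ⟨-, hi, hk⟩ := main hg hh hd hgf hhf hz
  obtain ⟨w, hw⟩ := exists_conj hi
  refine to_int hi hw (hC w ⟨minpoly ℤ z, minpoly.monic hi, hw⟩ fun k hkm hkf => ?_)
  obtain ⟨n, hn, h1⟩ := hk k hkm hkf
  refine ⟨n, hn, ?_⟩
  have := (same hi hw (k ^ n - 1)).2 (by rw [map_sub, map_pow, map_one, h1, sub_self])
  rwa [map_sub, map_pow, map_one, sub_eq_zero] at this

theorem settled_good {f g h : ℤ[X]} (hf : f.Monic) (hg : g.Monic) (hh : h.Monic)
    (hd : 0 < g.natDegree) (hR : Res g h ≠ 0) (hgf : g ∣ f) (hhf : h ∣ f)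
    (hgood : Good (g.natDegree * h.natDegree) p)
    (hC : ∀ w : ℂ, IsIntegral ℤ w → (∀ k : ℤ[X], k.Monic → k ∣ f →
      aeval w k = 1 ∨ aeval w k = -1) → ∃ x : ℤ, w = x) : Settled p f := by
  refine settled_of hf fun z hz => ?_
  obtain ⟨-, hi, -⟩ := main hg hh hd hgf hhf hz
  obtain ⟨-, n, hn, ha⟩ := hz
  obtain ⟨w, hw⟩ := exists_conj hi
  refine to_int hi hw (hC w ⟨minpoly ℤ z, minpoly.monic hi, hw⟩ fun k hkm hkf => ?_)
  rcases value_good hg hh hkm hd hR hn (approx_of hgf ha) (approx_of hhf ha) (approx_of hkf ha)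
    hgood.1 hgood.2 with h1 | h1
  · left
    have := (same hi hw (k - 1)).2 (by rw [map_sub, map_one, h1, sub_self])
    rwa [map_sub, map_one, sub_eq_zero] at this
  · right
    have := (same hi hw (k + 1)).2 (by rw [map_add, map_one, h1, neg_add_cancel])
    rw [map_add, map_one] at this
    exact eq_neg_of_add_eq_zero_left this

theorem empty_of {f g : ℤ[X]} {c : ℤ} (hg : g.Monic) (hd : 0 < g.natDegree) (hc : 3 ≤ |c|)
    (hgf : g * (g + C c) ∣ f) : Level1 p f = ∅ := by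
  refine Set.eq_empty_iff_forall_notMem.2 fun z hz => ?_
  obtain ⟨-, n, hn, ha⟩ := hz
  have a1 : Approx p g z n := approx_of ((Dvd.intro _ rfl).trans hgf) ha
  have a2 : Approx p (g + C c) z n := approx_of ((Dvd.intro_left _ rfl).trans hgf) ha
  have hm : (g + C c).Monic := hg.add_of_left (by
    refine lt_of_le_of_lt degree_C_le ?_
    exact natDegree_pos_iff_degree_pos.1 hd)
  have hi := integral hg hd hn a1
  obtain ⟨w, hw⟩ := exists_conj hi
  have n1 : ‖aeval w g‖ = 1 :=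
    Complex.norm_eq_one_of_pow_eq_one (pow_one' hg a1 hi hw) (by omega)
  have n2 : ‖aeval w (g + C c)‖ = 1 :=
    Complex.norm_eq_one_of_pow_eq_one (pow_one' hm a2 hi hw) (by omega)
  have e : ((c : ℤ) : ℂ) = aeval w (g + C c) - aeval w g := by
    rw [map_add, aeval_C]
    simp
  have h1 : ‖((c : ℤ) : ℂ)‖ ≤ 2 := by
    rw [e]
    refine (norm_sub_le _ _).trans ?_
    rw [n1, n2]
    norm_num
  rw [Complex.norm_intCast] at h1
  have h2 : (3 : ℝ) ≤ |(c : ℝ)| := by exact_mod_cast hc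
  linarith

theorem good_inf (d N : ℕ) : ∃ p, N < p ∧ p.Prime ∧ Good d p := by
  have hM : 4 * (2 * d + 1).factorial ≠ 0 := by positivity
  have : NeZero (4 * (2 * d + 1).factorial) := ⟨hM⟩
  obtain ⟨p, h1, h2, h3⟩ := Nat.forall_exists_prime_gt_and_eq_mod
    (q := 4 * (2 * d + 1).factorial) (a := -1) isUnit_one.neg N
  refine ⟨p, h1, h2, ?_⟩
  have h4 : 4 * (2 * d + 1).factorial ∣ p + 1 := by
    rw [← ZMod.natCast_eq_zero_iff]
    push_cast
    rw [h3]
    ring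
  constructor
  · have := (Dvd.intro _ rfl : 4 ∣ 4 * (2 * d + 1).factorial).trans h4
    omega
  · intro q hq hq2 hqd hqp
    have h5 : q ∣ p + 1 := (((hq.dvd_factorial).2 hqd).trans (Dvd.intro_left _ rfl)).trans h4
    have h6 : q ∣ 2 := by
      have := (Nat.dvd_sub h5 hqp)
      have h7 := h2.one_lt
      have h8 : p + 1 - (p - 1) = 2 := by omega
      rwa [h8] at this
    exact hq2 ((Nat.prime_dvd_prime_iff_eq hq Nat.prime_two).1 h6)

end proof

theorem result :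
    (∀ f g h : ℤ[X], f.Monic → g.Monic → h.Monic → 0 < g.natDegree → 0 < h.natDegree →
      (∀ α : ℂ, aeval α g = 0 → aeval α h ≠ 0) → g ∣ f → h ∣ f →
        -- (1)
        (∃ R : ℤ[X], R ≠ 0 ∧ R.natDegree ≤ 2 * (g.natDegree * h.natDegree) ∧
          ∀ (p : ℕ) [Fact p.Prime], ∀ z ∈ Level1 p f, aeval z R = 0 ∧ IsIntegral ℤ z ∧
            ∀ k : ℤ[X], k.Monic → k ∣ f → Ru (aeval z k)) ∧
        (∀ (p : ℕ) [Fact p.Prime], (Level1 p f).Finite ∧
          (Level1 p f).ncard ≤ 2 * (g.natDegree * h.natDegree)) ∧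
        -- (2)
        ((∀ w : ℂ, IsIntegral ℤ w → (∀ k : ℤ[X], k.Monic → k ∣ f → Ru (aeval w k)) →
          ∃ x : ℤ, w = x) → ∀ (p : ℕ) [Fact p.Prime], Settled p f) ∧
        -- (3)
        ((∀ w : ℂ, IsIntegral ℤ w → (∀ k : ℤ[X], k.Monic → k ∣ f →
          aeval w k = 1 ∨ aeval w k = -1) → ∃ x : ℤ, w = x) →
            ∀ (p : ℕ) [Fact p.Prime], Good (g.natDegree * h.natDegree) p → Settled p f)) ∧
    (∀ m N : ℕ, Good m 3 ∧ ∃ p, N < p ∧ p.Prime ∧ Good m p) ∧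
    -- (4)
    ∀ (f g : ℤ[X]) (c : ℤ), g.Monic → 0 < g.natDegree → 3 ≤ |c| → g * (g + C c) ∣ f →
      ∀ (p : ℕ) [Fact p.Prime], Level1 p f = ∅ := by
  refine ⟨?_, fun m N => ⟨⟨by norm_num, ?_⟩, good_inf m N⟩,
    fun f g c hg hd hc hgf p _ => empty_of hg hd hc hgf⟩
  · intro f g h hf hg hh hd hd' hco hgf hhf
    have hR := Pool.Agent.U188.WG.Res_ne_zero hd hh hd' hco
    refine ⟨⟨Pool.Agent.U188.WG.Res g h, hR, Pool.Agent.U188.WG.Res_natDegree g h,
      fun p _ z hz => main hg hh hd hgf hhf hz⟩, fun p _ => bound hg hh hd hR hgf hhf,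
      fun hC p _ => settled_ru hf hg hh hd hgf hhf hC,
      fun hC p _ hgood => settled_good hf hg hh hd hR hgf hhf hgood hC⟩
  · intro q hq hq2 _ hqd
    exact hq2 ((Nat.prime_dvd_prime_iff_eq hq Nat.prime_two).1 hqd)

end Pool.Agent.Results.MP_fd87b4_nt.ThreeComponents
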